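import Pool.Agent.Helper36_RF.GeoSt

/-!
# Symmetries of the curvature tensor (module SYM of the squad MP_a23110_gt)
-/

noncomputable section

open scoped ContDiff Topology RealInnerProductSpace
set_option maxSynthPendingDepth 3
open Set

namespace Pool.Agent.RF.H9

open Pool.Agent.RF

variable {ι : Type} [Fintype ι] [DecidableEq ι] {G : E ι → Bil (E ι)} {U : Set (E ι)}

/-- the facts on the Christoffel symbols at the points of `U` -/
structure ChrFacts (G : E ι → Bil (E ι)) (U : Set (E ι)) : Prop where
  inv : ∀ x ∈ U, (G x).IsInvertible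
  kos : ∀ x ∈ U, ∀ v w z, G x (chris G x v w) z =
        (1/2 : ℝ) * (fderiv ℝ G x v w z + fderiv ℝ G x w v z - fderiv ℝ G x z v w)
  dsymm : ∀ x ∈ U, ∀ v w z, fderiv ℝ G x z v w = fderiv ℝ G x z w v
  symm : ∀ x ∈ U, ∀ v w, chris G x v w = chris G x w v
  add : ∀ x ∈ U, ∀ v v' w, chris G x (v + v') w = chris G x v w + chris G x v' w
  smul : ∀ x ∈ U, ∀ (c : ℝ) v w, chris G x (c • v) w = c • chris G x v w
  smooth : ContDiffOn ℝ ∞ (fun q : E ι × E ι × E ι => chris G q.1 q.2.1 q.2.2) (U ×ˢ univ)

theorem chrFacts (hC : ChrStatement) (hG : IsMetricOn G U) : ChrFacts G U where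
  inv x hx := (hC ι G U hG x hx).1
  kos x hx := (hC ι G U hG x hx).2.1
  dsymm x hx := (hC ι G U hG x hx).2.2.1
  symm x hx := (hC ι G U hG x hx).2.2.2.1
  add x hx := (hC ι G U hG x hx).2.2.2.2.1
  smul x hx := (hC ι G U hG x hx).2.2.2.2.2.1
  smooth := by
    by_cases h : U.Nonempty
    · obtain ⟨x, hx⟩ := h
      exact (hC ι G U hG x hx).2.2.2.2.2.2
    · rw [Set.not_nonempty_iff_eq_empty] at h
      rw [h, Set.empty_prod]
      exact contDiffOn_empty

namespace ChrFacts

variable (hF : ChrFacts G U) {x : E ι} (hx : x ∈ U)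
include hF hx

omit [DecidableEq ι] in
theorem add' (v w w' : E ι) : chris G x v (w + w') = chris G x v w + chris G x v w' := by
  rw [hF.symm x hx, hF.add x hx, hF.symm x hx w, hF.symm x hx w']

omit [DecidableEq ι] in
theorem smul' (c : ℝ) (v w : E ι) : chris G x v (c • w) = c • chris G x v w := by
  rw [hF.symm x hx, hF.smul x hx, hF.symm x hx w]

omit [DecidableEq ι] in
theorem contDiffAt (hU : IsOpen U) (v w : E ι) : ContDiffAt ℝ ∞ (fun y => chris G y v w) x := by
  have h1 : ContDiffAt ℝ ∞ (fun q : E ι × E ι × E ι => chris G q.1 q.2.1 q.2.2) (x, v, w) := by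
    apply hF.smooth.contDiffAt
    exact (hU.prod isOpen_univ).mem_nhds ⟨hx, trivial⟩
  have h2 : ContDiffAt ℝ ∞ (fun y : E ι => (y, v, w)) x :=
    contDiffAt_id.prodMk contDiffAt_const
  exact ContDiffAt.comp x h1 h2

omit [DecidableEq ι] in
theorem diffAt (hU : IsOpen U) (v w : E ι) : DifferentiableAt ℝ (fun y => chris G y v w) x :=
  (hF.contDiffAt hx hU v w).differentiableAt (by simp)

omit [DecidableEq ι] in
theorem d_symm (hU : IsOpen U) (v w : E ι) :
    fderiv ℝ (fun y => chris G y v w) x = fderiv ℝ (fun y => chris G y w v) x := by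
  apply Filter.EventuallyEq.fderiv_eq
  filter_upwards [hU.mem_nhds hx] with y hy
  exact hF.symm y hy v w

omit [DecidableEq ι] in
theorem d_add (hU : IsOpen U) (v v' w : E ι) :
    fderiv ℝ (fun y => chris G y (v + v') w) x =
      fderiv ℝ (fun y => chris G y v w) x + fderiv ℝ (fun y => chris G y v' w) x := by
  rw [← fderiv_add (hF.diffAt hx hU v w) (hF.diffAt hx hU v' w)]
  apply Filter.EventuallyEq.fderiv_eq
  filter_upwards [hU.mem_nhds hx] with y hy
  exact hF.add y hy v v' w

omit [DecidableEq ι] in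
theorem d_smul (hU : IsOpen U) (c : ℝ) (v w : E ι) :
    fderiv ℝ (fun y => chris G y (c • v) w) x = c • fderiv ℝ (fun y => chris G y v w) x := by
  rw [← fderiv_const_smul (hF.diffAt hx hU v w)]
  apply Filter.EventuallyEq.fderiv_eq
  filter_upwards [hU.mem_nhds hx] with y hy
  exact hF.smul y hy c v w

omit [DecidableEq ι] in
theorem d_add' (hU : IsOpen U) (v w w' : E ι) :
    fderiv ℝ (fun y => chris G y v (w + w')) x =
      fderiv ℝ (fun y => chris G y v w) x + fderiv ℝ (fun y => chris G y v w') x := by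
  rw [hF.d_symm hx hU, hF.d_add hx hU, hF.d_symm hx hU w, hF.d_symm hx hU w']

omit [DecidableEq ι] in
theorem d_smul' (hU : IsOpen U) (c : ℝ) (v w : E ι) :
    fderiv ℝ (fun y => chris G y v (c • w)) x = c • fderiv ℝ (fun y => chris G y v w) x := by
  rw [hF.d_symm hx hU, hF.d_smul hx hU, hF.d_symm hx hU w]

omit [DecidableEq ι] in
theorem riem_add (hU : IsOpen U) (u v w w' : E ι) :
    riem G x u v (w + w') = riem G x u v w + riem G x u v w' := by
  simp only [riem, hF.d_add' hx hU, hF.add' hx, add_apply]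
  abel

omit [DecidableEq ι] in
theorem riem_smul (hU : IsOpen U) (c : ℝ) (u v w : E ι) :
    riem G x u v (c • w) = c • riem G x u v w := by
  simp only [riem, hF.d_smul' hx hU, hF.smul' hx, smul_apply, smul_sub, smul_add]

omit [DecidableEq ι] in
/-- metric compatibility -/
theorem compat (v w z : E ι) (hs : ∀ v w, G x v w = G x w v) :
    fderiv ℝ G x v w z = G x (chris G x v w) z + G x w (chris G x v z) := by
  rw [hs w, hF.kos x hx, hF.kos x hx, hF.dsymm x hx z w v, hF.dsymm x hx v w z,
    hF.dsymm x hx w v z, hF.dsymm x hx v z w]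
  rw [hF.dsymm x hx w z v, hF.dsymm x hx v w z]
  ring

end ChrFacts

omit [DecidableEq ι] in
theorem riem_skew (u v w : E ι) (x : E ι) : riem G x u v w = - riem G x v u w := by
  simp only [riem]
  abel

omit [DecidableEq ι] in
theorem bianchi (hF : ChrFacts G U) {x : E ι} (hx : x ∈ U) (hU : IsOpen U) (u v w : E ι) :
    riem G x u v w + riem G x v w u + riem G x w u v = 0 := by
  simp only [riem]
  rw [hF.d_symm hx hU u w, hF.d_symm hx hU v w, hF.d_symm hx hU u v, hF.symm x hx v w,
    hF.symm x hx u w, hF.symm x hx u v]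
  abel

omit [DecidableEq ι] in
/-- metric antisymmetry -/
theorem metric_skew (hF : ChrFacts G U) (hG : IsMetricOn G U) {x : E ι} (hx : x ∈ U)
    (u v w z : E ι) :
    G x (riem G x u v w) z = - G x (riem G x u v z) w := by
  have hU := hG.isOpen
  have hGd : ∀ y ∈ U, ContDiffAt ℝ ∞ G y := fun y hy => hG.smooth.contDiffAt (hU.mem_nhds hy)
  have hGx : DifferentiableAt ℝ G x := (hGd x hx).differentiableAt (by simp)
  have hs := hG.symm
  -- second derivative
  have hdd : ContDiffAt ℝ 1 (fderiv ℝ G) x := (hGd x hx).fderiv_right (by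
    exact WithTop.coe_le_coe.2 le_top)
  have hdd' : DifferentiableAt ℝ (fderiv ℝ G) x := hdd.differentiableAt (by simp)
  have hsym2 : ∀ a b : E ι, fderiv ℝ (fderiv ℝ G) x a b = fderiv ℝ (fderiv ℝ G) x b a := by
    have := (hGd x hx).isSymmSndFDerivAt (by
      simp only [minSmoothness_of_isRCLikeNormedField]
      exact WithTop.coe_le_coe.2 le_top)
    intro a b
    exact this a b
  have key : ∀ a b c d : E ι, fderiv ℝ (fderiv ℝ G) x a b c d =
      fderiv ℝ G x a (chris G x b c) d + G x (fderiv ℝ (fun y => chris G y b c) x a) d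
      + (fderiv ℝ G x a c (chris G x b d) + G x c (fderiv ℝ (fun y => chris G y b d) x a)) := by
    intro a b c d
    have e1 : HasFDerivAt (fun y => fderiv ℝ G y b c d)
        (((ContinuousLinearMap.apply ℝ ℝ d).comp ((ContinuousLinearMap.apply ℝ (E ι →L[ℝ] ℝ) c).comp
          ((ContinuousLinearMap.apply ℝ (Bil (E ι)) b).comp (fderiv ℝ (fderiv ℝ G) x))))) x := by
      exact HasFDerivAt.comp (g := fun D : E ι →L[ℝ] Bil (E ι) => D b c d) x
        (((ContinuousLinearMap.apply ℝ ℝ d).comp
        ((ContinuousLinearMap.apply ℝ (E ι →L[ℝ] ℝ) c).comp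
          (ContinuousLinearMap.apply ℝ (Bil (E ι)) b))).hasFDerivAt) hdd'.hasFDerivAt
    have hGf := hGx.hasFDerivAt
    have hbc := (hF.diffAt hx hU b c).hasFDerivAt
    have hbd := (hF.diffAt hx hU b d).hasFDerivAt
    have e2 := ((hGf.clm_apply hbc).clm_apply (hasFDerivAt_const d x)).add
      ((hGf.clm_apply (hasFDerivAt_const c x)).clm_apply hbd)
    have e3 := e2.congr_of_eventuallyEq (f₁ := fun y : E ι => fderiv ℝ G y b c d) (by
      filter_upwards [hU.mem_nhds hx] with y hy
      exact hF.compat hy b c d (hs y hy))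
    have e4 := congrArg (fun L : E ι →L[ℝ] ℝ => L a) (e1.unique e3)
    simp at e4
    linarith
  have hc := fun a b c => hF.compat hx a b c (hs x hx)
  have h1 := key u v w z
  have h2 := key v u w z
  rw [hsym2 v u] at h2
  rw [h1] at h2
  rw [hc u (chris G x v w) z, hc u w (chris G x v z), hc v (chris G x u w) z,
    hc v w (chris G x u z)] at h2
  rw [hs x hx (riem G x u v z) w]
  simp only [riem, map_add, map_sub, add_apply, sub_apply]
  linarith

/-- matrix of the metric -/
def gmat (g : Bil (E ι)) : Matrix ι ι ℝ := Matrix.of fun i j => g (eb i) (eb j)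

theorem sum_eb (v : E ι) : v = ∑ i, v i • (eb i : E ι) := by
  ext j
  simp [eb, Pi.single_apply]

theorem det_gmat {g : Bil (E ι)} (hp : ∀ v, v ≠ 0 → 0 < g v v) : (gmat g).det ≠ 0 := by
  intro h0
  obtain ⟨c, hc, hc0⟩ := Matrix.exists_mulVec_eq_zero_iff.2 h0
  set v : E ι := ∑ i, c i • (eb i : E ι) with hv
  have hvi : ∀ i, v i = c i := by
    intro i
    rw [hv]
    simp [eb, Pi.single_apply]
  have hv0 : v ≠ 0 := by
    intro h
    apply hc
    funext i
    rw [← hvi i, h]
    rfl
  have h1 : g v v = 0 := by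
    have e1 : ∀ i, g (eb i) v = 0 := by
      intro i
      have := congrFun hc0 i
      rw [hv, map_sum]
      simp only [map_smul, smul_eq_mul]
      simpa [Matrix.mulVec, dotProduct, gmat, mul_comm] using this
    have e2 : g v v = ∑ i, c i * g (eb i) v := by
      conv_lhs => rw [show g v = g (∑ i, c i • (eb i : E ι)) from by rw [hv]]
      simp
    rw [e2]
    simp [e1]
  exact (hp v hv0).ne' h1

/-- a linear map which is skew for a metric has trace zero -/
theorem trace_skew {g : Bil (E ι)} (hp : ∀ v, v ≠ 0 → 0 < g v v)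
    (hs : ∀ v w, g v w = g w v) (T : E ι →ₗ[ℝ] E ι)
    (hT : ∀ v w, g (T v) w = - g (T w) v) : ∑ i, (T (eb i)) i = 0 := by
  set M : Matrix ι ι ℝ := Matrix.of fun i j => (T (eb j)) i with hM
  have h1 : (gmat g) * M = - (M.transpose * gmat g) := by
    ext j k
    rw [Matrix.neg_apply, Matrix.mul_apply, Matrix.mul_apply]
    simp only [gmat, hM, Matrix.transpose_apply, Matrix.of_apply]
    have e1 : g (eb j) (T (eb k)) = ∑ i, g (eb j) (eb i) * (T (eb k)) i := by
      conv_lhs => rw [sum_eb (T (eb k)), map_sum]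
      refine Finset.sum_congr rfl fun i _ => ?_
      rw [map_smul, smul_eq_mul, mul_comm]
    have e2 : g (T (eb j)) (eb k) = ∑ i, (T (eb j)) i * g (eb i) (eb k) := by
      conv_lhs => rw [sum_eb (T (eb j)), map_sum, sum_apply]
      refine Finset.sum_congr rfl fun i _ => ?_
      rw [map_smul, smul_apply, smul_eq_mul]
    rw [← e1, ← e2, hs, hT]
  have hdet : IsUnit (gmat g).det := (det_gmat hp).isUnit
  have h2 : M.trace = - M.trace := by
    calc M.trace = ((gmat g)⁻¹ * (gmat g * M)).trace := by
          rw [← Matrix.mul_assoc, Matrix.nonsing_inv_mul _ hdet, Matrix.one_mul]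
      _ = - ((gmat g)⁻¹ * (M.transpose * gmat g)).trace := by
          rw [h1, Matrix.mul_neg, Matrix.trace_neg]
      _ = - (M.transpose).trace := by
          rw [Matrix.trace_mul_comm, Matrix.mul_assoc, Matrix.mul_nonsing_inv _ hdet,
            Matrix.mul_one]
      _ = - M.trace := by rw [Matrix.trace_transpose]
  have h3 : M.trace = 0 := by linarith
  simpa [Matrix.trace, hM] using h3

theorem ric_symm (hF : ChrFacts G U) (hG : IsMetricOn G U) {x : E ι} (hx : x ∈ U) (v w : E ι) :
    ric G x v w = ric G x w v := by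
  have hU := hG.isOpen
  let T : E ι →ₗ[ℝ] E ι :=
    { toFun := fun u => riem G x v w u
      map_add' := fun a b => hF.riem_add hx hU v w a b
      map_smul' := fun c a => hF.riem_smul hx hU c v w a }
  have h1 := trace_skew (hG.pos x hx) (hG.symm x hx) T (fun a b => by
    exact metric_skew hF hG hx v w a b)
  have h2 : ric G x v w - ric G x w v = - ∑ i, (T (eb i)) i := by
    unfold ric
    rw [← Finset.sum_sub_distrib, ← Finset.sum_neg_distrib]
    refine Finset.sum_congr rfl fun i _ => ?_
    have hb := bianchi hF hx hU (eb i) v w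
    have hb' := congrArg (fun z : E ι => z i) hb
    have hs := congrArg (fun z : E ι => z i) (riem_skew (G := G) (eb i) w v x)
    simp only [PiLp.add_apply, PiLp.neg_apply, PiLp.zero_apply] at hb' hs
    show (riem G x (eb i) v w) i - (riem G x (eb i) w v) i = - (riem G x v w (eb i)) i
    linarith
  rw [h1, neg_zero, sub_eq_zero] at h2
  exact h2

theorem sym (hC : ChrStatement) : SymStatement := by
  intro ι _ _ G U hG x hx
  have hF := chrFacts hC hG
  have hU := hG.isOpen
  refine ⟨fun u v w => riem_skew u v w x, fun u v w => bianchi hF hx hU u v w,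
    fun u v w z => metric_skew hF hG hx u v w z, fun u v w z => ?_,
    fun v w => ric_symm hF hG hx v w, fun v w => ?_⟩
  · have B : ∀ a b c d, G x (riem G x a b c) d + G x (riem G x b c a) d
        + G x (riem G x c a b) d = 0 := by
      intro a b c d
      have := congrArg (fun y => G x y d) (bianchi hF hx hU a b c)
      simpa using this
    have S1 : ∀ a b c d, G x (riem G x a b c) d = - G x (riem G x b a c) d := by
      intro a b c d
      rw [riem_skew a b c x, map_neg, neg_apply]
    have S2 := fun a b c d => metric_skew hF hG hx a b c d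
    have b1 := B u v w z
    have b2 := B v w z u
    have b3 := B w z u v
    have b4 := B z u v w
    have s1 := S2 v w z u
    have s2 := S2 w z v u
    have s3 := S1 z v w u
    have s3' := S2 v z w u
    have s4 := S2 u w z v
    have s5 := S1 u w v z
    have s6 := S2 z u v w
    have s7 := S2 u v z w
    linarith
  · simp only [rdt]
    rw [ric_symm hF hG hx v w, hF.dsymm x hx v w, hG.symm x hx (fderiv ℝ (dtW G) x v) w,
      hG.symm x hx v]
    ring

end Pool.Agent.RF.H9
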