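import Pool.Agent.Helper58_RF.Frame
import Pool.Agent.Helper36_RF.MainMod

/-!
# Failure of nonnegativity is open in the 2-jet (module OPEN, helper9)
-/

noncomputable section

open scoped ContDiff Topology RealInnerProductSpace Matrix
set_option maxSynthPendingDepth 3
set_option linter.unusedSectionVars false
open Set

namespace Pool.Agent.RF.H9O

open Pool.Agent.RF

variable {ι κ : Type} [Fintype ι] [DecidableEq ι] [Fintype κ] [DecidableEq κ]

/-! ### The transformation law -/

theorem sum4 (f : κ → κ → κ → κ → ℝ) :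
    ∑ i, ∑ j, ∑ a, ∑ c, f i j a c = ∑ a, ∑ c, ∑ i, ∑ j, f i j a c := by
  calc ∑ i, ∑ j, ∑ a, ∑ c, f i j a c
      = ∑ i, ∑ a, ∑ c, ∑ j, f i j a c := by
        refine Finset.sum_congr rfl fun i _ => ?_
        rw [Finset.sum_comm]
        refine Finset.sum_congr rfl fun a _ => ?_
        rw [Finset.sum_comm]
    _ = ∑ a, ∑ c, ∑ i, ∑ j, f i j a c := by
        rw [Finset.sum_comm]
        refine Finset.sum_congr rfl fun a _ => ?_
        rw [Finset.sum_comm]

theorem two_tensor (t : κ → κ → ℝ) (ψ C : Matrix κ κ ℝ) :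
    ∑ i, ∑ j, (∑ a, ∑ c, C a i * C c j * t a c) * ψ i j
      = ∑ a, ∑ c, t a c * (C * ψ * Cᵀ) a c := by
  have h1 : ∀ i j, (∑ a, ∑ c, C a i * C c j * t a c) * ψ i j =
      ∑ a, ∑ c, C a i * C c j * t a c * ψ i j := by
    intro i j
    rw [Finset.sum_mul]
    exact Finset.sum_congr rfl fun a _ => Finset.sum_mul _ _ _
  simp only [h1]
  rw [sum4]
  refine Finset.sum_congr rfl fun a _ => Finset.sum_congr rfl fun c _ => ?_
  rw [Matrix.mul_apply, Finset.mul_sum, Finset.sum_comm]
  refine Finset.sum_congr rfl fun j _ => ?_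
  rw [Matrix.mul_apply, Finset.sum_mul, Finset.mul_sum]
  refine Finset.sum_congr rfl fun i _ => ?_
  rw [Matrix.transpose_apply]
  ring

section law

variable {G : E ι → Bil (E ι)} {U : Set (E ι)}

theorem skf_law (hG : IsMetricOn G U) {x : E ι} (hx : x ∈ U) (e e' : κ → E ι)
    (C ψ : Matrix κ κ ℝ) (he : ∀ j, e j = ∑ i, C i j • e' i) :
    skf G x e ψ = skf G x e' (C * ψ * Cᵀ) := by
  set φ' := C * ψ * Cᵀ with hφ'
  -- first pair of slots
  have hA : ∀ u v : E ι, ∑ i, ∑ j, G x (riem G x (e i) u (e j)) v * ψ i j =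
      ∑ a, ∑ c, G x (riem G x (e' a) u (e' c)) v * φ' a c := by
    intro u v
    rw [hφ', ← two_tensor (fun a c => G x (riem G x (e' a) u (e' c)) v)]
    refine Finset.sum_congr rfl fun i _ => Finset.sum_congr rfl fun j _ => ?_
    congr 1
    rw [he i, he j, H58.riem_sum1 hG hx, map_sum (G x), _root_.sum_apply]
    refine Finset.sum_congr rfl fun a _ => ?_
    rw [map_smul (G x), _root_.smul_apply, H58.riem_sum3 hG hx, map_sum (G x),
      _root_.sum_apply, Finset.smul_sum]
    refine Finset.sum_congr rfl fun c _ => ?_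
    rw [map_smul (G x), _root_.smul_apply]
    simp only [smul_eq_mul]
    ring
  have hB : ∀ u v : E ι, ∑ k, ∑ l, G x (riem G x u (e k) v) (e l) * ψ k l =
      ∑ b, ∑ d, G x (riem G x u (e' b) v) (e' d) * φ' b d := by
    intro u v
    rw [hφ', ← two_tensor (fun b d => G x (riem G x u (e' b) v) (e' d))]
    refine Finset.sum_congr rfl fun i _ => Finset.sum_congr rfl fun j _ => ?_
    congr 1
    rw [he i, H58.riem_sum2 hG hx, map_sum (G x), _root_.sum_apply]
    refine Finset.sum_congr rfl fun a _ => ?_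
    rw [map_smul (G x), _root_.smul_apply, he j, map_sum, Finset.smul_sum]
    refine Finset.sum_congr rfl fun c _ => ?_
    rw [map_smul]
    simp only [smul_eq_mul]
    ring
  unfold skf
  calc ∑ i, ∑ j, ∑ k, ∑ l, G x (riem G x (e i) (e k) (e j)) (e l) * ψ k l * ψ i j
      = ∑ i, ∑ j, (∑ b, ∑ d, G x (riem G x (e i) (e' b) (e j)) (e' d) * φ' b d) * ψ i j := by
        refine Finset.sum_congr rfl fun i _ => Finset.sum_congr rfl fun j _ => ?_
        rw [← hB, Finset.sum_mul]
        exact Finset.sum_congr rfl fun k _ => (Finset.sum_mul _ _ _).symm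
    _ = ∑ i, ∑ j, ∑ b, ∑ d, (G x (riem G x (e i) (e' b) (e j)) (e' d) * ψ i j) * φ' b d := by
        refine Finset.sum_congr rfl fun i _ => Finset.sum_congr rfl fun j _ => ?_
        rw [Finset.sum_mul]
        refine Finset.sum_congr rfl fun b _ => ?_
        rw [Finset.sum_mul]
        exact Finset.sum_congr rfl fun d _ => by ring
    _ = ∑ b, ∑ d, (∑ i, ∑ j, G x (riem G x (e i) (e' b) (e j)) (e' d) * ψ i j) * φ' b d := by
        rw [sum4]
        refine Finset.sum_congr rfl fun b _ => Finset.sum_congr rfl fun d _ => ?_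
        rw [Finset.sum_mul]
        exact Finset.sum_congr rfl fun i _ => (Finset.sum_mul _ _ _).symm
    _ = ∑ b, ∑ d, ∑ a, ∑ c, G x (riem G x (e' a) (e' b) (e' c)) (e' d) * φ' b d * φ' a c := by
        refine Finset.sum_congr rfl fun b _ => Finset.sum_congr rfl fun d _ => ?_
        rw [hA, Finset.sum_mul]
        refine Finset.sum_congr rfl fun a _ => ?_
        rw [Finset.sum_mul]
        exact Finset.sum_congr rfl fun c _ => by ring
    _ = ∑ a, ∑ c, ∑ b, ∑ d, G x (riem G x (e' a) (e' b) (e' c)) (e' d) * φ' b d * φ' a c := by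
        rw [sum4]

end law

/-! ### Orthonormalisation -/

theorem exists_ortho (g : Bil (E ι)) (hs : ∀ v w, g v w = g w v) (hp : ∀ v, v ≠ 0 → 0 < g v v)
    (e : κ → E ι) (hli : LinearIndependent ℝ e) :
    ∃ (e' : κ → E ι) (C D : Matrix κ κ ℝ), IsOrtho g e' ∧ (∀ j, e j = ∑ i, C i j • e' i) ∧
      (∀ j, e' j = ∑ i, D i j • e i) ∧ ∀ k l, (Cᵀ * C) k l = g (e k) (e l) := by
  classical
  let A : Matrix κ κ ℝ := Matrix.of fun k l => g (e k) (e l)
  have hA : A.PosDef := by
    refine Matrix.PosDef.of_dotProduct_mulVec_pos ?_ ?_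
    · ext k l
      simp [A, hs (e l) (e k)]
    · intro v hv
      have h1 : star v ⬝ᵥ (A *ᵥ v) = g (∑ i, v i • e i) (∑ j, v j • e j) := by
        simp only [dotProduct, Matrix.mulVec, star_trivial]
        rw [map_sum g, _root_.sum_apply]
        refine Finset.sum_congr rfl fun k _ => ?_
        rw [map_smul, _root_.smul_apply, map_sum, smul_eq_mul]
        congr 1
        refine Finset.sum_congr rfl fun l _ => ?_
        rw [map_smul, smul_eq_mul, mul_comm]
        rfl
      rw [h1]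
      apply hp
      intro h0
      apply hv
      ext k
      exact Fintype.linearIndependent_iff.1 hli v h0 k
  open scoped MatrixOrder ComplexOrder in
  obtain ⟨C, hC1, hC2⟩ : ∃ C : Matrix κ κ ℝ, Cᵀ = C ∧ C * C = A := by
    refine ⟨CFC.sqrt A, ?_, CFC.sqrt_mul_sqrt_self A hA.posSemidef.nonneg⟩
    have h1 := (Matrix.nonneg_iff_posSemidef.1 (CFC.sqrt_nonneg A)).isHermitian
    have h2 : (CFC.sqrt A)ᴴ = CFC.sqrt A := h1
    rwa [Matrix.conjTranspose_eq_transpose_of_trivial] at h2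
  have hdet : IsUnit C.det := by
    have h1 : A.det ≠ 0 := hA.det_pos.ne'
    rw [← hC2, Matrix.det_mul] at h1
    exact isUnit_iff_ne_zero.2 (left_ne_zero_of_mul h1)
  refine ⟨fun j => ∑ i, C⁻¹ i j • e i, C, C⁻¹, ?_, ?_, fun j => rfl, ?_⟩
  · intro a b
    have h1 : g (∑ i, C⁻¹ i a • e i) (∑ j, C⁻¹ j b • e j) = ((C⁻¹)ᵀ * A * C⁻¹) a b := by
      rw [Matrix.mul_apply, map_sum g, _root_.sum_apply]
      simp only [map_smul, _root_.smul_apply, map_sum, smul_eq_mul,
        Matrix.mul_apply, Finset.sum_mul, Matrix.transpose_apply]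
      rw [Finset.sum_comm]
      refine Finset.sum_congr rfl fun i _ => Finset.sum_congr rfl fun j _ => ?_
      simp only [A, Matrix.of_apply]
      ring
    have h2 : (C⁻¹)ᵀ * A * C⁻¹ = 1 := by
      rw [Matrix.transpose_nonsing_inv, hC1, ← hC2, ← Matrix.mul_assoc,
        Matrix.nonsing_inv_mul C hdet, Matrix.one_mul, Matrix.mul_nonsing_inv C hdet]
    show g (∑ i, C⁻¹ i a • e i) (∑ j, C⁻¹ j b • e j) = _
    rw [h1, h2, Matrix.one_apply]
  · intro j
    have h1 : ∀ k, (C⁻¹ * C) k j = if k = j then 1 else 0 := by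
      intro k
      rw [Matrix.nonsing_inv_mul C hdet, Matrix.one_apply]
    have h2 : ∑ i, C i j • ∑ k, C⁻¹ k i • e k = ∑ k, (C⁻¹ * C) k j • e k := by
      simp only [Finset.smul_sum, smul_smul]
      rw [Finset.sum_comm]
      refine Finset.sum_congr rfl fun k _ => ?_
      rw [Matrix.mul_apply, Finset.sum_smul]
      exact Finset.sum_congr rfl fun i _ => by rw [mul_comm]
    rw [h2]
    simp only [h1, ite_smul, one_smul, zero_smul, Finset.sum_ite_eq', Finset.mem_univ, if_true]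
  · intro k l
    rw [hC1, hC2]
    rfl

/-! ### Continuity -/

theorem cont_kos {J : ℝ → E ι →L[ℝ] Bil (E ι)} {s : Set ℝ} (h : ContinuousWithinAt J s 0)
    (v w : E ι) : ContinuousWithinAt (fun ε => kos (J ε) v w) s 0 := by
  unfold kos
  have h1 : ContinuousWithinAt (fun ε => J ε v w + J ε w v -
      ((ContinuousLinearMap.apply ℝ ℝ w).comp
        ((ContinuousLinearMap.apply ℝ (E ι →L[ℝ] ℝ) v).comp (J ε)))) s 0 := by
    refine ((((h.clm_apply continuousWithinAt_const).clm_apply continuousWithinAt_const).add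
      ((h.clm_apply continuousWithinAt_const).clm_apply continuousWithinAt_const))).sub ?_
    exact continuousWithinAt_const.clm_comp (continuousWithinAt_const.clm_comp h)
  exact h1.const_smul (1/2 : ℝ)

theorem cont_chris {G : ℝ → E ι → Bil (E ι)} {x : E ι} {s : Set ℝ}
    (hinv : ContinuousLinearMap.IsInvertible (G 0 x : E ι →L[ℝ] (E ι →L[ℝ] ℝ)))
    (h1 : ContinuousWithinAt (fun ε => G ε x) s 0)
    (h2 : ContinuousWithinAt (fun ε => fderiv ℝ (G ε) x) s 0) (v w : E ι) :
    ContinuousWithinAt (fun ε => chris (G ε) x v w) s 0 := by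
  unfold chris
  have h3 : ContinuousWithinAt (fun ε => (G ε x).inverse) s 0 := by
    have h4 : ContinuousAt ContinuousLinearMap.inverse (G 0 x) :=
      (hinv.contDiffAt_map_inverse (n := 0)).continuousAt
    exact ContinuousAt.comp_continuousWithinAt (g := ContinuousLinearMap.inverse)
      (f := fun ε => G ε x) h4 h1
  exact h3.clm_apply (cont_kos h2 v w)

theorem cont_Q {G : ℝ → E ι → Bil (E ι)} {x : E ι} {ε₁ : ℝ} (hx : x ∈ Om ι) (h0 : 0 < ε₁)
    (hG : ∀ ε ∈ Icc 0 ε₁, IsCyl (G ε))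
    (hJ : ContinuousWithinAt (fun ε => (G ε x, fderiv ℝ (G ε) x, fderiv ℝ (fderiv ℝ (G ε)) x))
      (Icc 0 ε₁) 0) (a b c d : E ι) :
    ContinuousWithinAt (fun ε => G ε x (riem (G ε) x a b c) d) (Icc 0 ε₁) 0 := by
  have h1 : ContinuousWithinAt (fun ε => G ε x) (Icc 0 ε₁) 0 := hJ.fst
  have h2 : ContinuousWithinAt (fun ε => fderiv ℝ (G ε) x) (Icc 0 ε₁) 0 := hJ.snd.fst
  have h3 : ContinuousWithinAt (fun ε => fderiv ℝ (fderiv ℝ (G ε)) x) (Icc 0 ε₁) 0 := hJ.snd.snd
  have hz : (0 : ℝ) ∈ Icc 0 ε₁ := ⟨le_refl _, h0.le⟩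
  have hch := cont_chris ((hG 0 hz).metric.inv hx) h1 h2
  have h4 : ∀ p q r t : E ι, ContinuousWithinAt
      (fun ε => fderiv ℝ (fderiv ℝ (G ε)) x p q r t) (Icc 0 ε₁) 0 := fun p q r t =>
    (((h3.clm_apply continuousWithinAt_const).clm_apply continuousWithinAt_const).clm_apply
      continuousWithinAt_const).clm_apply continuousWithinAt_const
  have h5 : ContinuousWithinAt (fun ε => (1/2 : ℝ) * (fderiv ℝ (fderiv ℝ (G ε)) x a c b d
      + fderiv ℝ (fderiv ℝ (G ε)) x b d a c - fderiv ℝ (fderiv ℝ (G ε)) x a d b c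
      - fderiv ℝ (fderiv ℝ (G ε)) x b c a d)
      - G ε x (chris (G ε) x b c) (chris (G ε) x a d)
      + G ε x (chris (G ε) x a c) (chris (G ε) x b d)) (Icc 0 ε₁) 0 := by
    refine ((continuousWithinAt_const.mul ((((h4 _ _ _ _).add (h4 _ _ _ _)).sub
      (h4 _ _ _ _)).sub (h4 _ _ _ _))).sub ?_).add ?_
    · exact (h1.clm_apply (hch _ _)).clm_apply (hch _ _)
    · exact (h1.clm_apply (hch _ _)).clm_apply (hch _ _)
  refine h5.congr (fun ε hε => ?_) ?_
  · exact H58.riem_formula (hG ε hε).metric hx a b c d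
  · exact H58.riem_formula (hG 0 hz).metric hx a b c d

theorem openStatement : OpenStatement := by
  intro ι κ _ _ _ _ ε₁ G x _ h0 hx hG hJ hneg
  have hz : (0 : ℝ) ∈ Icc 0 ε₁ := ⟨le_refl _, h0.le⟩
  unfold NonnegTan at hneg
  push Not at hneg
  obtain ⟨e, he1, he2', φ, hφ1, hφ2, hφ3⟩ := hneg
  have he2 : ∀ i j, G 0 x (e i) (e j) = if i = j then 1 else 0 := he2'
  have hκ : Nonempty κ := by
    by_contra hne
    rw [not_nonempty_iff] at hne
    simp [skf] at hφ3
  have hJ1 : ContinuousWithinAt (fun ε => G ε x) (Icc 0 ε₁) 0 := hJ.fst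
  have hg : ∀ v w : E ι, ContinuousWithinAt (fun ε => G ε x v w) (Icc 0 ε₁) 0 := fun v w =>
    (hJ1.clm_apply continuousWithinAt_const).clm_apply continuousWithinAt_const
  let τ : ℝ → ℝ := fun ε => (∑ k, ∑ l, φ k l * G ε x (e k) (e l)) / ∑ k, G ε x (e k) (e k)
  let ψ : ℝ → Matrix κ κ ℝ := fun ε => φ - τ ε • (1 : Matrix κ κ ℝ)
  have hne : ∀ i, e i ≠ 0 := by
    intro i hi
    have := he2 i i
    rw [hi] at this
    simp at this
  have htr : ∀ ε ∈ Icc 0 ε₁, 0 < ∑ k, G ε x (e k) (e k) := fun ε hε =>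
    Finset.sum_pos (fun k _ => (hG ε hε).metric.pos x hx _ (hne k)) Finset.univ_nonempty
  have hτc : ContinuousWithinAt τ (Icc 0 ε₁) 0 := by
    refine ContinuousWithinAt.div ?_ ?_ (htr 0 hz).ne'
    · exact tendsto_finsetSum _ fun k _ => tendsto_finsetSum _ fun l _ =>
        (hg _ _).const_mul _
    · exact tendsto_finsetSum _ fun k _ => hg _ _
  have hτ0 : τ 0 = 0 := by
    have h1 : ∑ k, ∑ l, φ k l * G 0 x (e k) (e l) = φ.trace := by
      unfold Matrix.trace
      refine Finset.sum_congr rfl fun k _ => ?_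
      simp [he2, Matrix.diag]
    simp only [τ]
    rw [h1, hφ2, zero_div]
  have hψc : ∀ i j, ContinuousWithinAt (fun ε => ψ ε i j) (Icc 0 ε₁) 0 := by
    intro i j
    have : (fun ε => ψ ε i j) = fun ε => φ i j - τ ε * (1 : Matrix κ κ ℝ) i j := by
      funext ε
      simp [ψ]
    rw [this]
    exact continuousWithinAt_const.sub (hτc.mul continuousWithinAt_const)
  have hψ0 : ψ 0 = φ := by simp [ψ, hτ0]
  have hs : ContinuousWithinAt (fun ε => skf (G ε) x e (ψ ε)) (Icc 0 ε₁) 0 := by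
    unfold skf
    refine tendsto_finsetSum _ fun i _ => tendsto_finsetSum _ fun j _ =>
      tendsto_finsetSum _ fun k _ => tendsto_finsetSum _ fun l _ => ?_
    exact ((cont_Q hx h0 hG hJ _ _ _ _).mul (hψc k l)).mul (hψc i j)
  have hlt : skf (G 0) x e (ψ 0) < 0 := by rw [hψ0]; exact hφ3
  have hev : ∀ᶠ ε in 𝓝[Icc 0 ε₁] 0, skf (G ε) x e (ψ ε) < 0 :=
    hs.eventually_lt continuousWithinAt_const hlt
  have hev2 : ∀ᶠ ε in 𝓝[Ioc 0 ε₁] 0, skf (G ε) x e (ψ ε) < 0 :=
    hev.filter_mono (nhdsWithin_mono _ Ioc_subset_Icc_self)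
  have hnb : (𝓝[Ioc 0 ε₁] (0 : ℝ)).NeBot := by
    rw [nhdsWithin_Ioc_eq_nhdsGT h0]
    infer_instance
  obtain ⟨ε, hε1, hε2⟩ := (hev2.and self_mem_nhdsWithin).exists
  refine ⟨ε, hε2, ?_⟩
  have hεI : ε ∈ Icc 0 ε₁ := Ioc_subset_Icc_self hε2
  have hm := (hG ε hεI).metric
  have hli : LinearIndependent ℝ e := by
    rw [Fintype.linearIndependent_iff]
    intro c hc i
    have h1 : G 0 x (e i) (∑ j, c j • e j) = c i := by
      rw [map_sum]
      simp only [map_smul, he2, smul_eq_mul, mul_ite, mul_one, mul_zero, Finset.sum_ite_eq,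
        Finset.mem_univ, if_true]
    rw [← h1, hc, map_zero]
  obtain ⟨e', C, D, h1, h2, h3, h4⟩ := exists_ortho (G ε x) (hm.symm x hx) (hm.pos x hx) e hli
  intro hnn
  have h5 := hnn e' (fun i => by
    rw [h3 i, inner_sum]
    refine Finset.sum_eq_zero fun j _ => ?_
    rw [inner_smul_right, he1 j, mul_zero]) h1 (C * ψ ε * Cᵀ) (by
      have hψs : (ψ ε)ᵀ = ψ ε := by
        simp only [ψ, Matrix.transpose_sub, Matrix.transpose_smul, Matrix.transpose_one]
        rw [hφ1.eq]
      unfold Matrix.IsSymm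
      rw [Matrix.transpose_mul, Matrix.transpose_mul, Matrix.transpose_transpose, hψs,
        Matrix.mul_assoc]) (by
      rw [Matrix.trace_mul_comm, ← Matrix.mul_assoc]
      have h6 : (Cᵀ * C * ψ ε).trace = ∑ k, ∑ l, φ k l * G ε x (e k) (e l)
          - τ ε * ∑ k, G ε x (e k) (e k) := by
        simp only [ψ, Matrix.mul_sub, Matrix.trace_sub, Matrix.mul_smul, Matrix.mul_one,
          Matrix.trace_smul, smul_eq_mul]
        congr 1
        · unfold Matrix.trace
          simp only [Matrix.diag_apply]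
          rw [Finset.sum_congr rfl fun k _ => Matrix.mul_apply, Finset.sum_comm]
          refine Finset.sum_congr rfl fun k _ => Finset.sum_congr rfl fun l _ => ?_
          rw [h4, hm.symm x hx]
          ring
        · congr 1
          unfold Matrix.trace
          exact Finset.sum_congr rfl fun k _ => h4 k k
      rw [h6]
      simp only [τ]
      rw [div_mul_cancel₀ _ (htr ε hεI).ne', sub_self])
  rw [← skf_law hm hx e e' C (ψ ε) h2] at h5
  linarith

end Pool.Agent.RF.H9O
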