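import Pool.Agent.Helper9_RF.Sym

/-!
# The Ricci-DeTurck operator preserves cylinders (module RDTC of the squad MP_a23110_gt)
-/

noncomputable section

open scoped ContDiff Topology RealInnerProductSpace
set_option maxSynthPendingDepth 3
open Set

namespace Pool.Agent.RF.H9

open Pool.Agent.RF

section Homog

variable {V Y : Type*} [NormedAddCommGroup V] [NormedSpace ℝ V] [NormedAddCommGroup Y]
  [NormedSpace ℝ Y]

/-- derivative of a homogeneous function -/
theorem fderiv_homog {f : V → Y} {a c : ℝ} (hc : c ≠ 0) {x : V} (hf : DifferentiableAt ℝ f x)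
    (hf' : DifferentiableAt ℝ f (c • x)) (h : ∀ᶠ y in 𝓝 x, f (c • y) = a • f y) (v : V) :
    fderiv ℝ f (c • x) v = (c⁻¹ * a) • fderiv ℝ f x v := by
  have h1 : HasFDerivAt (fun y => f (c • y))
      ((fderiv ℝ f (c • x)).comp (c • ContinuousLinearMap.id ℝ V)) x := by
    have hs : HasFDerivAt (fun y : V => c • y) (c • ContinuousLinearMap.id ℝ V) x :=
      (hasFDerivAt_id x).const_smul c
    exact HasFDerivAt.comp (g := f) x hf'.hasFDerivAt hs
  have h2 : HasFDerivAt (fun y => f (c • y)) (a • fderiv ℝ f x) x :=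
    (hf.hasFDerivAt.const_smul a).congr_of_eventuallyEq h
  have h3 := congrArg (fun L : V →L[ℝ] Y => L v) (h1.unique h2)
  simp only [ContinuousLinearMap.comp_apply, smul_apply, ContinuousLinearMap.id_apply,
    map_smul] at h3
  rw [mul_smul, ← h3, smul_smul, inv_mul_cancel₀ hc, one_smul]

/-- Euler identity -/
theorem euler {f : V → Y} {g : ℝ → ℝ} {g' : ℝ} {x : V} (hf : DifferentiableAt ℝ f x)
    (hg : HasDerivAt g g' 1) (h : ∀ᶠ c in 𝓝 (1 : ℝ), f (c • x) = g c • f x) :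
    fderiv ℝ f x x = g' • f x := by
  have h1 : HasDerivAt (fun c : ℝ => f (c • x)) (fderiv ℝ f x x) 1 := by
    have hs : HasDerivAt (fun c : ℝ => c • x) ((1 : ℝ) • x) 1 := (hasDerivAt_id 1).smul_const x
    have hf' : HasFDerivAt f (fderiv ℝ f x) ((1 : ℝ) • x) := by
      rw [one_smul]
      exact hf.hasFDerivAt
    have := hf'.comp_hasDerivAt (1 : ℝ) hs
    rw [one_smul] at this
    exact this
  have h2 : HasDerivAt (fun c : ℝ => f (c • x)) (g' • f x) 1 :=
    (hg.smul_const (f x)).congr_of_eventuallyEq h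
  exact h1.unique h2

end Homog

variable {ι : Type} [Fintype ι] [DecidableEq ι] {G : E ι → Bil (E ι)}

omit [DecidableEq ι] in
theorem Om_open : IsOpen (Om ι) := isOpen_ne

omit [DecidableEq ι] in
theorem smul_mem_Om {c : ℝ} (hc : 0 < c) {x : E ι} (hx : x ∈ Om ι) : c • x ∈ Om ι := by
  intro h
  exact hx ((smul_eq_zero.1 h).resolve_left hc.ne')

omit [DecidableEq ι] in
theorem cyl_diff (hG : IsCyl G) {x : E ι} (hx : x ∈ Om ι) : DifferentiableAt ℝ G x :=
  (hG.metric.smooth.contDiffAt (Om_open.mem_nhds hx)).differentiableAt (by simp)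

omit [DecidableEq ι] in
theorem cyl_dx (hG : IsCyl G) {x : E ι} (hx : x ∈ Om ι) : fderiv ℝ G x x = (-2 : ℝ) • G x := by
  apply euler (g := fun c : ℝ => (c ^ 2)⁻¹) (cyl_diff hG hx)
  · have := ((hasDerivAt_id (1 : ℝ)).pow 2).inv (by simp)
    refine this.congr_deriv ?_
    norm_num
  · filter_upwards [lt_mem_nhds (show (0 : ℝ) < 1 by norm_num)] with c hc
    exact hG.homog c hc x hx

omit [DecidableEq ι] in
/-- derivative of the radial identity -/
theorem cyl_dv (hG : IsCyl G) {x : E ι} (hx : x ∈ Om ι) (v w : E ι) :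
    fderiv ℝ G x v x w = - G x v w + (⟪v, w⟫ / ‖x‖ ^ 2 - 2 * ⟪x, v⟫ * ⟪x, w⟫ / ‖x‖ ^ 4) := by
  have hGf := (cyl_diff hG hx).hasFDerivAt
  have hx0 : ‖x‖ ≠ 0 := norm_ne_zero_iff.2 hx
  have e1 := (hGf.clm_apply (hasFDerivAt_id x)).clm_apply (hasFDerivAt_const w x)
  have n1 : HasFDerivAt (fun y : E ι => ‖y‖ ^ 2) (2 • (innerSL ℝ x)) x :=
    (hasStrictFDerivAt_norm_sq x).hasFDerivAt
  have n2 : HasFDerivAt (fun y : E ι => (⟪y, w⟫ : ℝ)) (innerSL ℝ w) x := by
    have := (innerSL ℝ w).hasFDerivAt (x := x)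
    refine this.congr_of_eventuallyEq (Filter.Eventually.of_forall fun y => ?_)
    simp only [innerSL_apply_apply]
    exact real_inner_comm _ _
  have n3 : HasFDerivAt (fun y : E ι => (‖y‖ ^ 2)⁻¹) (-((‖x‖ ^ 2) ^ 2)⁻¹ • (2 • (innerSL ℝ x))) x := by
    have := (hasDerivAt_inv (pow_ne_zero 2 hx0)).comp_hasFDerivAt x n1
    exact this
  have e2 := n2.mul n3
  have e3 := e1.congr_of_eventuallyEq (f₁ := fun y : E ι => (⟪y, w⟫ : ℝ) * (‖y‖ ^ 2)⁻¹) (by
    filter_upwards [Om_open.mem_nhds hx] with y hy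
    have := hG.radial y hy w
    simp only [id]
    rw [this, div_eq_mul_inv])
  have e4 := congrArg (fun L : E ι →L[ℝ] ℝ => L v) (e2.unique e3)
  simp at e4
  rw [real_inner_comm v w] at e4
  have e5 : fderiv ℝ G x v x w = -(G x v w) + (-(⟪x, w⟫ * (((‖x‖ ^ 2) ^ 2)⁻¹ * (2 * ⟪x, v⟫)))
      + (‖x‖ ^ 2)⁻¹ * ⟪v, w⟫) := by
    linarith
  rw [e5]
  field_simp
  ring

omit [DecidableEq ι] in
theorem ginv_homog (hI : ∀ x ∈ Om ι, (G x).IsInvertible) (hG : IsCyl G) {x : E ι} (hx : x ∈ Om ι)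
    {c : ℝ} (hc : 0 < c) (k l : ι) : ginv (G (c • x)) k l = c ^ 2 * ginv (G x) k l := by
  unfold ginv
  have h1 : (G (c • x)).inverse (EuclideanSpace.proj k) =
      c ^ 2 • (G x).inverse (EuclideanSpace.proj k) := by
    rw [(hI _ (smul_mem_Om hc hx)).inverse_apply_eq, hG.homog c hc x hx, smul_apply, map_smul,
      (hI x hx).self_apply_inverse, smul_smul, inv_mul_cancel₀ (pow_ne_zero 2 hc.ne'), one_smul]
  rw [h1]
  simp

omit [DecidableEq ι] in
theorem bgchris_homog {x : E ι} {c : ℝ} (hc : 0 < c) (v w : E ι) :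
    bgchris (c • x) v w = c⁻¹ • bgchris x v w := by
  unfold bgchris
  rw [norm_smul, Real.norm_of_nonneg hc.le, real_inner_smul_left, real_inner_smul_left]
  have e1 : (c * ⟪x, v⟫) • w + (c * ⟪x, w⟫) • v - ⟪v, w⟫ • c • x =
      c • (⟪x, v⟫ • w + ⟪x, w⟫ • v - ⟪v, w⟫ • x) := by
    module
  rw [e1, smul_smul, smul_smul]
  congr 1
  by_cases hx0 : ‖x‖ = 0
  · rw [hx0]; simp
  · field_simp

theorem dtW_homog (hI : ∀ x ∈ Om ι, (G x).IsInvertible) (hG : IsCyl G)
    (hC : ∀ x ∈ Om ι, ∀ (c : ℝ), 0 < c → ∀ v w, chris G (c • x) v w = c⁻¹ • chris G x v w)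
    {x : E ι} (hx : x ∈ Om ι) {c : ℝ} (hc : 0 < c) : dtW G (c • x) = c • dtW G x := by
  unfold dtW
  rw [Finset.smul_sum]
  refine Finset.sum_congr rfl fun k _ => ?_
  rw [Finset.smul_sum]
  refine Finset.sum_congr rfl fun l _ => ?_
  rw [ginv_homog hI hG hx hc, hC x hx c hc, bgchris_homog hc, ← smul_sub, smul_smul, smul_smul]
  congr 1
  field_simp

omit [DecidableEq ι] in
theorem inner_chris (hF : ChrFacts G (Om ι)) (hG : IsCyl G) {x : E ι} (hx : x ∈ Om ι)
    (v w : E ι) : ⟪x, chris G x v w⟫ = ⟪x, bgchris x v w⟫ := by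
  have hx0 : ‖x‖ ≠ 0 := norm_ne_zero_iff.2 hx
  have h1 := hF.kos x hx v w x
  rw [hG.metric.symm x hx _ x, hG.radial x hx, cyl_dx hG hx, hF.dsymm x hx w x v,
    hF.dsymm x hx v x w, cyl_dv hG hx, cyl_dv hG hx, hG.metric.symm x hx w v] at h1
  simp only [smul_apply, smul_eq_mul] at h1
  have h2 : ⟪x, chris G x v w⟫ = ⟪v, w⟫ - 2 * ⟪x, v⟫ * ⟪x, w⟫ / ‖x‖ ^ 2 := by
    rw [div_eq_iff (pow_ne_zero 2 hx0)] at h1
    rw [h1, real_inner_comm w v]
    field_simp
    ring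
  rw [h2, bgchris, inner_smul_right, inner_sub_right, inner_add_right, inner_smul_right,
    inner_smul_right, inner_smul_right, real_inner_self_eq_norm_sq]
  field_simp
  ring

theorem inner_dtW (hF : ChrFacts G (Om ι)) (hG : IsCyl G) {x : E ι} (hx : x ∈ Om ι) :
    ⟪x, dtW G x⟫ = 0 := by
  unfold dtW
  rw [inner_sum]
  refine Finset.sum_eq_zero fun k _ => ?_
  rw [inner_sum]
  refine Finset.sum_eq_zero fun l _ => ?_
  rw [inner_smul_right, inner_sub_right, inner_chris hF hG hx, sub_self, mul_zero]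

omit [DecidableEq ι] in
theorem bgchris_smooth {x : E ι} (hx : x ∈ Om ι) (v w : E ι) :
    ContDiffAt ℝ ∞ (fun y => bgchris y v w) x := by
  unfold bgchris
  have hx0 : ‖x‖ ≠ 0 := norm_ne_zero_iff.2 hx
  have h1 : ContDiffAt ℝ ∞ (fun y : E ι => -(‖y‖ ^ 2)⁻¹) x :=
    ((contDiff_norm_sq ℝ).contDiffAt.inv (pow_ne_zero 2 hx0)).neg
  have h2 : ContDiffAt ℝ ∞ (fun y : E ι => ⟪y, v⟫ • w + ⟪y, w⟫ • v - ⟪v, w⟫ • y) x := by
    have i1 : ∀ v : E ι, ContDiffAt ℝ ∞ (fun y : E ι => (⟪y, v⟫ : ℝ)) x := fun v =>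
      contDiffAt_id.inner ℝ contDiffAt_const
    have i2 : ContDiffAt ℝ ∞ (fun y : E ι => ⟪v, w⟫ • y) x := contDiffAt_id.const_smul _
    exact (((i1 v).smul contDiffAt_const).add ((i1 w).smul contDiffAt_const)).sub i2
  exact h1.smul h2

omit [DecidableEq ι] in
theorem ginv_smooth (hI : ∀ x ∈ Om ι, (G x).IsInvertible) (hG : IsCyl G) {x : E ι}
    (hx : x ∈ Om ι) (k l : ι) : ContDiffAt ℝ ∞ (fun y => ginv (G y) k l) x := by
  unfold ginv
  have h1 : ContDiffAt ℝ ∞ G x := hG.metric.smooth.contDiffAt (Om_open.mem_nhds hx)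
  have h2 : ContDiffAt ℝ ∞ (fun y => (G y).inverse) x :=
    ContDiffAt.comp x ((hI x hx).contDiffAt_map_inverse) h1
  have h3 : ContDiffAt ℝ ∞ (fun y => (G y).inverse (EuclideanSpace.proj k)) x :=
    h2.clm_apply contDiffAt_const
  exact ((EuclideanSpace.proj (𝕜 := ℝ) l).contDiff.contDiffAt).comp x h3

theorem dtW_smooth (hF : ChrFacts G (Om ι)) (hG : IsCyl G) : ContDiffOn ℝ ∞ (dtW G) (Om ι) := by
  intro x hx
  apply ContDiffAt.contDiffWithinAt
  unfold dtW
  refine ContDiffAt.sum fun k _ => ContDiffAt.sum fun l _ => ?_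
  exact (ginv_smooth hF.inv hG hx k l).smul
    ((hF.contDiffAt hx Om_open _ _).sub (bgchris_smooth hx _ _))

theorem rdtCyl (hC : ChrStatement) (hCyl : CylStatement) : RdtCylStatement := by
  intro ι _ _ G hG
  have hF := chrFacts hC hG.metric
  have hW := dtW_smooth hF hG
  have hWd : ∀ x ∈ Om ι, DifferentiableAt ℝ (dtW G) x := fun x hx =>
    (hW.contDiffAt (Om_open.mem_nhds hx)).differentiableAt (by simp)
  have hchr := fun x hx => (hCyl ι G hG x hx).2.2.2.2.2.1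
  have hWh : ∀ x ∈ Om ι, ∀ c : ℝ, 0 < c → dtW G (c • x) = c • dtW G x :=
    fun x hx c hc => dtW_homog hF.inv hG hchr hx hc
  have hsym := sym hC ι G (Om ι) hG.metric
  -- Euler and radial derivatives of W
  have hWx : ∀ x ∈ Om ι, fderiv ℝ (dtW G) x x = dtW G x := by
    intro x hx
    have := euler (g := fun c : ℝ => c) (x := x) (hWd x hx) (hasDerivAt_id 1) (by
      filter_upwards [lt_mem_nhds (show (0 : ℝ) < 1 by norm_num)] with c hc
      exact hWh x hx c hc)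
    rwa [one_smul] at this
  have hWr : ∀ x ∈ Om ι, ∀ w, ⟪x, fderiv ℝ (dtW G) x w⟫ = - ⟪w, dtW G x⟫ := by
    intro x hx w
    have h1 := (hasFDerivAt_id x).inner ℝ (hWd x hx).hasFDerivAt
    have h2 : HasFDerivAt (fun y : E ι => (⟪id y, dtW G y⟫ : ℝ)) (0 : E ι →L[ℝ] ℝ) x := by
      apply (hasFDerivAt_const (0 : ℝ) x).congr_of_eventuallyEq
      filter_upwards [Om_open.mem_nhds hx] with y hy
      exact inner_dtW hF hG hy
    have h3 := congrArg (fun L : E ι →L[ℝ] ℝ => L w) (h1.unique h2)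
    simp at h3
    linarith
  have hrad : ∀ x ∈ Om ι, ∀ w, rdt G x x w = 0 := by
    intro x hx w
    simp only [rdt]
    rw [(hCyl ι G hG x hx).2.2.2.1, cyl_dv hG hx, hWx x hx, hG.radial x hx, hWr x hx,
      inner_dtW hF hG hx, real_inner_comm w (dtW G x)]
    ring
  refine ⟨hW, fun x hx => ⟨inner_dtW hF hG hx, fun c hc => hWh x hx c hc, hrad x hx,
    fun w => ?_, fun c hc v w => ?_⟩⟩
  · rw [(hsym x hx).2.2.2.2.2, hrad x hx]
  · have hcx := smul_mem_Om hc hx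
    simp only [rdt]
    have e1 : fderiv ℝ G (c • x) (dtW G (c • x)) =
        (c⁻¹ * (c ^ 2)⁻¹) • fderiv ℝ G x (dtW G (c • x)) :=
      fderiv_homog hc.ne' (cyl_diff hG hx) (cyl_diff hG hcx) (by
        filter_upwards [Om_open.mem_nhds hx] with y hy
        exact hG.homog c hc y hy) _
    have e2 : ∀ u, fderiv ℝ (dtW G) (c • x) u = fderiv ℝ (dtW G) x u := by
      intro u
      have := fderiv_homog (a := c) hc.ne' (hWd x hx) (hWd _ hcx) (by
        filter_upwards [Om_open.mem_nhds hx] with y hy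
        exact hWh y hy c hc) u
      rwa [inv_mul_cancel₀ hc.ne', one_smul] at this
    rw [(hCyl ι G hG x hx).2.2.2.2.2.2 c hc, e1, e2, e2, hWh x hx c hc, hG.homog c hc x hx,
      map_smul]
    simp only [smul_apply, smul_eq_mul]
    field_simp

end Pool.Agent.RF.H9
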