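import Pool.Agent.Helper9_RF.RdtCyl

/-!
# Structure of the Ricci-DeTurck operator (module RDTS of the squad MP_a23110_gt)
-/

noncomputable section

open scoped ContDiff Topology RealInnerProductSpace
set_option maxSynthPendingDepth 3
open Set

namespace Pool.Agent.RF.H9

open Pool.Agent.RF

variable {ι : Type} [Fintype ι] [DecidableEq ι] {G : E ι → Bil (E ι)} {U : Set (E ι)}

/-! ### The lower order expressions -/

/-- Christoffel symbols as a function of the metric and its derivative -/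
def cg (g : Bil (E ι)) (L : E ι →L[ℝ] Bil (E ι)) (v w : E ι) : E ι := g.inverse (kos L v w)

def dg (g : Bil (E ι)) (L : E ι →L[ℝ] Bil (E ι)) (u v w : E ι) : E ι :=
  - g.inverse (L u (cg g L v w))

def rg (g : Bil (E ι)) (L : E ι →L[ℝ] Bil (E ι)) (u v w : E ι) : E ι :=
  dg g L u v w - dg g L v u w + cg g L u (cg g L v w) - cg g L v (cg g L u w)

def ricg (g : Bil (E ι)) (L : E ι →L[ℝ] Bil (E ι)) (v w : E ι) : ℝ := ∑ i, (rg g L (eb i) v w) i

def dgi (g : Bil (E ι)) (L : E ι →L[ℝ] Bil (E ι)) (u : E ι) (k l : ι) : ℝ :=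
  - (g.inverse (L u (g.inverse (EuclideanSpace.proj k)))) l

def Wg (x : E ι) (g : Bil (E ι)) (L : E ι →L[ℝ] Bil (E ι)) : E ι :=
  ∑ k, ∑ l, ginv g k l • (cg g L (eb k) (eb l) - bgchris x (eb k) (eb l))

def dWg (x : E ι) (g : Bil (E ι)) (L : E ι →L[ℝ] Bil (E ι)) (u : E ι) : E ι :=
  ∑ k, ∑ l, (dgi g L u k l • (cg g L (eb k) (eb l) - bgchris x (eb k) (eb l))
    + ginv g k l • (dg g L u (eb k) (eb l) - fderiv ℝ (fun y => bgchris y (eb k) (eb l)) x u))

def phi (x : E ι) (g : Bil (E ι)) (L : E ι →L[ℝ] Bil (E ι)) (v w : E ι) : ℝ :=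
  -2 * ricg g L v w + L (Wg x g L) v w + g (dWg x g L v) w + g v (dWg x g L w)

/-! ### Bilinearity -/

omit [DecidableEq ι] in
theorem kos_add (L : E ι →L[ℝ] Bil (E ι)) (v v' w : E ι) :
    kos L (v + v') w = kos L v w + kos L v' w := by
  ext z
  simp only [kos_apply, map_add, add_apply]
  ring

omit [DecidableEq ι] in
theorem kos_add' (L : E ι →L[ℝ] Bil (E ι)) (v w w' : E ι) :
    kos L v (w + w') = kos L v w + kos L v w' := by
  ext z
  simp only [kos_apply, map_add, add_apply]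
  ring

omit [DecidableEq ι] in
theorem kos_smul (L : E ι →L[ℝ] Bil (E ι)) (c : ℝ) (v w : E ι) :
    kos L (c • v) w = c • kos L v w := by
  ext z
  simp only [kos_apply, map_smul, smul_apply, smul_eq_mul]
  ring

omit [DecidableEq ι] in
theorem kos_smul' (L : E ι →L[ℝ] Bil (E ι)) (c : ℝ) (v w : E ι) :
    kos L v (c • w) = c • kos L v w := by
  ext z
  simp only [kos_apply, map_smul, smul_apply, smul_eq_mul]
  ring

omit [DecidableEq ι] in
theorem cg_add (g : Bil (E ι)) (L : E ι →L[ℝ] Bil (E ι)) (v v' w : E ι) :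
    cg g L (v + v') w = cg g L v w + cg g L v' w := by
  simp only [cg, kos_add, map_add]

omit [DecidableEq ι] in
theorem cg_add' (g : Bil (E ι)) (L : E ι →L[ℝ] Bil (E ι)) (v w w' : E ι) :
    cg g L v (w + w') = cg g L v w + cg g L v w' := by
  simp only [cg, kos_add', map_add]

omit [DecidableEq ι] in
theorem cg_smul (g : Bil (E ι)) (L : E ι →L[ℝ] Bil (E ι)) (c : ℝ) (v w : E ι) :
    cg g L (c • v) w = c • cg g L v w := by
  simp only [cg, kos_smul, map_smul]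

omit [DecidableEq ι] in
theorem cg_smul' (g : Bil (E ι)) (L : E ι →L[ℝ] Bil (E ι)) (c : ℝ) (v w : E ι) :
    cg g L v (c • w) = c • cg g L v w := by
  simp only [cg, kos_smul', map_smul]

omit [DecidableEq ι] in
theorem rg_add (g : Bil (E ι)) (L : E ι →L[ℝ] Bil (E ι)) (u v v' w : E ι) :
    rg g L u (v + v') w = rg g L u v w + rg g L u v' w := by
  simp only [rg, dg, cg_add, cg_add', map_add, add_apply]
  abel

omit [DecidableEq ι] in
theorem rg_smul (g : Bil (E ι)) (L : E ι →L[ℝ] Bil (E ι)) (c : ℝ) (u v w : E ι) :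
    rg g L u (c • v) w = c • rg g L u v w := by
  simp only [rg, dg, cg_smul, cg_smul', map_smul, smul_apply]
  module

omit [DecidableEq ι] in
theorem rg_add' (g : Bil (E ι)) (L : E ι →L[ℝ] Bil (E ι)) (u v w w' : E ι) :
    rg g L u v (w + w') = rg g L u v w + rg g L u v w' := by
  simp only [rg, dg, cg_add', map_add]
  abel

omit [DecidableEq ι] in
theorem rg_smul' (g : Bil (E ι)) (L : E ι →L[ℝ] Bil (E ι)) (c : ℝ) (u v w : E ι) :
    rg g L u v (c • w) = c • rg g L u v w := by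
  simp only [rg, dg, cg_smul', map_smul]
  module

theorem dWg_add (x : E ι) (g : Bil (E ι)) (L : E ι →L[ℝ] Bil (E ι)) (u u' : E ι) :
    dWg x g L (u + u') = dWg x g L u + dWg x g L u' := by
  simp only [dWg, ← Finset.sum_add_distrib]
  refine Finset.sum_congr rfl fun k _ => Finset.sum_congr rfl fun l _ => ?_
  simp only [dgi, dg, map_add, add_apply, PiLp.add_apply]
  module

theorem dWg_smul (x : E ι) (g : Bil (E ι)) (L : E ι →L[ℝ] Bil (E ι)) (c : ℝ) (u : E ι) :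
    dWg x g L (c • u) = c • dWg x g L u := by
  simp only [dWg, Finset.smul_sum]
  refine Finset.sum_congr rfl fun k _ => Finset.sum_congr rfl fun l _ => ?_
  simp only [dgi, dg, map_smul, smul_apply, PiLp.smul_apply, smul_eq_mul]
  module

/-- `phi` as a bilinear map -/
def phiL (x : E ι) (g : Bil (E ι)) (L : E ι →L[ℝ] Bil (E ι)) : E ι →ₗ[ℝ] E ι →ₗ[ℝ] ℝ :=
  LinearMap.mk₂ ℝ (phi x g L)
    (fun v v' w => by
      simp only [phi, ricg, rg_add, dWg_add, PiLp.add_apply, Finset.sum_add_distrib, map_add,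
        add_apply]
      ring)
    (fun c v w => by
      simp only [phi, ricg, rg_smul, dWg_smul, PiLp.smul_apply, map_smul,
        smul_apply, smul_eq_mul, ← Finset.mul_sum]
      ring)
    (fun v w w' => by
      simp only [phi, ricg, rg_add', dWg_add, PiLp.add_apply, Finset.sum_add_distrib, map_add]
      ring)
    (fun c v w => by
      simp only [phi, ricg, rg_smul', dWg_smul, PiLp.smul_apply, map_smul,
        smul_eq_mul, ← Finset.mul_sum]
      ring)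

/-- elementary bilinear form -/
def ebil (i j : ι) : Bil (E ι) :=
  (EuclideanSpace.proj (𝕜 := ℝ) i : E ι →L[ℝ] ℝ).smulRight (EuclideanSpace.proj (𝕜 := ℝ) j)

omit [DecidableEq ι] in
theorem ebil_apply (i j : ι) (v w : E ι) : ebil i j v w = v i * w j := by
  simp [ebil]

/-- the lower order part as a field of bilinear forms -/
def Phi (q : E ι × Bil (E ι) × (E ι →L[ℝ] Bil (E ι))) : Bil (E ι) :=
  ∑ i, ∑ j, phi q.1 q.2.1 q.2.2 (eb i) (eb j) • ebil i j

theorem Phi_apply (q : E ι × Bil (E ι) × (E ι →L[ℝ] Bil (E ι))) (v w : E ι) :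
    Phi q v w = phi q.1 q.2.1 q.2.2 v w := by
  have h1 : phi q.1 q.2.1 q.2.2 v w = phiL q.1 q.2.1 q.2.2 v w := rfl
  rw [h1]
  conv_rhs => rw [sum_eb v, sum_eb w]
  simp only [map_sum, map_smul, LinearMap.sum_apply, LinearMap.smul_apply, smul_eq_mul, Phi,
    sum_apply, smul_apply, ebil_apply]
  have h2 : ∀ i j : ι, phiL q.1 q.2.1 q.2.2 (eb i) (eb j) = phi q.1 q.2.1 q.2.2 (eb i) (eb j) :=
    fun _ _ => rfl
  rw [Finset.sum_comm]
  refine Finset.sum_congr rfl fun i _ => ?_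
  try rw [Finset.mul_sum]
  refine Finset.sum_congr rfl fun j _ => ?_
  rw [h2]
  ring

/-! ### Smoothness -/

section Smooth

variable {Q : Type*} [NormedAddCommGroup Q] [NormedSpace ℝ Q] {q₀ : Q}
  {x : Q → E ι} {g : Q → Bil (E ι)} {L : Q → E ι →L[ℝ] Bil (E ι)}

omit [DecidableEq ι] in
theorem kos_smooth (hL : ContDiffAt ℝ ∞ L q₀) {v w : Q → E ι} (hv : ContDiffAt ℝ ∞ v q₀)
    (hw : ContDiffAt ℝ ∞ w q₀) : ContDiffAt ℝ ∞ (fun q => kos (L q) (v q) (w q)) q₀ := by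
  unfold kos
  have h1 : ContDiffAt ℝ ∞ (fun q => L q (v q) (w q)) q₀ := (hL.clm_apply hv).clm_apply hw
  have h2 : ContDiffAt ℝ ∞ (fun q => L q (w q) (v q)) q₀ := (hL.clm_apply hw).clm_apply hv
  have h3 : ContDiffAt ℝ ∞ (fun q => ContinuousLinearMap.apply ℝ ℝ (w q)) q₀ :=
    ((ContinuousLinearMap.apply ℝ ℝ : E ι →L[ℝ] _).contDiff.contDiffAt).comp q₀ hw
  have h4 : ContDiffAt ℝ ∞ (fun q => ContinuousLinearMap.apply ℝ (E ι →L[ℝ] ℝ) (v q)) q₀ :=
    ((ContinuousLinearMap.apply ℝ (E ι →L[ℝ] ℝ) : E ι →L[ℝ] _).contDiff.contDiffAt).comp q₀ hv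
  have h5 := h3.clm_comp (h4.clm_comp hL)
  exact ((h1.add h2).sub h5).const_smul (1/2 : ℝ)

omit [DecidableEq ι] in
theorem inv_smooth (hg : ContDiffAt ℝ ∞ g q₀) (hI : (g q₀).IsInvertible)
    {ξ : Q → E ι →L[ℝ] ℝ} (hξ : ContDiffAt ℝ ∞ ξ q₀) :
    ContDiffAt ℝ ∞ (fun q => (g q).inverse (ξ q)) q₀ := by
  have h2 : ContDiffAt ℝ ∞ (fun q => (g q).inverse) q₀ :=
    ContDiffAt.comp q₀ (hI.contDiffAt_map_inverse) hg
  exact h2.clm_apply hξ

omit [DecidableEq ι] in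
theorem cg_smooth (hg : ContDiffAt ℝ ∞ g q₀) (hI : (g q₀).IsInvertible)
    (hL : ContDiffAt ℝ ∞ L q₀) {v w : Q → E ι} (hv : ContDiffAt ℝ ∞ v q₀)
    (hw : ContDiffAt ℝ ∞ w q₀) : ContDiffAt ℝ ∞ (fun q => cg (g q) (L q) (v q) (w q)) q₀ :=
  inv_smooth hg hI (kos_smooth hL hv hw)

omit [DecidableEq ι] in
theorem dg_smooth (hg : ContDiffAt ℝ ∞ g q₀) (hI : (g q₀).IsInvertible)
    (hL : ContDiffAt ℝ ∞ L q₀) (u v w : E ι) :
    ContDiffAt ℝ ∞ (fun q => dg (g q) (L q) u v w) q₀ := by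
  unfold dg
  exact (inv_smooth hg hI ((hL.clm_apply contDiffAt_const).clm_apply
    (cg_smooth hg hI hL contDiffAt_const contDiffAt_const))).neg

omit [DecidableEq ι] in
theorem rg_smooth (hg : ContDiffAt ℝ ∞ g q₀) (hI : (g q₀).IsInvertible)
    (hL : ContDiffAt ℝ ∞ L q₀) (u v w : E ι) :
    ContDiffAt ℝ ∞ (fun q => rg (g q) (L q) u v w) q₀ := by
  unfold rg
  exact (((dg_smooth hg hI hL u v w).sub (dg_smooth hg hI hL v u w)).add
    (cg_smooth hg hI hL contDiffAt_const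
      (cg_smooth hg hI hL contDiffAt_const contDiffAt_const))).sub
    (cg_smooth hg hI hL contDiffAt_const
      (cg_smooth hg hI hL contDiffAt_const contDiffAt_const))

omit [DecidableEq ι] in
theorem coord_smooth {f : Q → E ι} (hf : ContDiffAt ℝ ∞ f q₀) (i : ι) :
    ContDiffAt ℝ ∞ (fun q => (f q) i) q₀ :=
  ((EuclideanSpace.proj (𝕜 := ℝ) i).contDiff.contDiffAt).comp q₀ hf

theorem ricg_smooth (hg : ContDiffAt ℝ ∞ g q₀) (hI : (g q₀).IsInvertible)
    (hL : ContDiffAt ℝ ∞ L q₀) (v w : E ι) :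
    ContDiffAt ℝ ∞ (fun q => ricg (g q) (L q) v w) q₀ := by
  unfold ricg
  exact ContDiffAt.sum fun i _ => coord_smooth (rg_smooth hg hI hL _ v w) i

omit [DecidableEq ι] in
theorem ginv_smooth' (hg : ContDiffAt ℝ ∞ g q₀) (hI : (g q₀).IsInvertible) (k l : ι) :
    ContDiffAt ℝ ∞ (fun q => ginv (g q) k l) q₀ := by
  unfold ginv
  exact coord_smooth (inv_smooth hg hI contDiffAt_const) l

omit [DecidableEq ι] in
theorem dgi_smooth (hg : ContDiffAt ℝ ∞ g q₀) (hI : (g q₀).IsInvertible)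
    (hL : ContDiffAt ℝ ∞ L q₀) (u : E ι) (k l : ι) :
    ContDiffAt ℝ ∞ (fun q => dgi (g q) (L q) u k l) q₀ := by
  unfold dgi
  exact (coord_smooth (inv_smooth hg hI ((hL.clm_apply contDiffAt_const).clm_apply
    (inv_smooth hg hI contDiffAt_const))) l).neg

omit [DecidableEq ι] in
theorem bg_smooth (hx : ContDiffAt ℝ ∞ x q₀) (hx0 : x q₀ ∈ Om ι) (v w : E ι) :
    ContDiffAt ℝ ∞ (fun q => bgchris (x q) v w) q₀ :=
  (bgchris_smooth hx0 v w).comp q₀ hx

omit [DecidableEq ι] in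
theorem dbg_smooth (hx : ContDiffAt ℝ ∞ x q₀) (hx0 : x q₀ ∈ Om ι) (v w u : E ι) :
    ContDiffAt ℝ ∞ (fun q => fderiv ℝ (fun y => bgchris y v w) (x q) u) q₀ := by
  have h1 : ContDiffAt ℝ ∞ (fderiv ℝ (fun y : E ι => bgchris y v w)) (x q₀) :=
    (bgchris_smooth hx0 v w).fderiv_right (by simp)
  have h2 : ContDiffAt ℝ ∞ (fun q => fderiv ℝ (fun y : E ι => bgchris y v w) (x q)) q₀ :=
    h1.comp q₀ hx
  exact h2.clm_apply contDiffAt_const

theorem Wg_smooth (hx : ContDiffAt ℝ ∞ x q₀) (hx0 : x q₀ ∈ Om ι) (hg : ContDiffAt ℝ ∞ g q₀)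
    (hI : (g q₀).IsInvertible) (hL : ContDiffAt ℝ ∞ L q₀) :
    ContDiffAt ℝ ∞ (fun q => Wg (x q) (g q) (L q)) q₀ := by
  unfold Wg
  exact ContDiffAt.sum fun k _ => ContDiffAt.sum fun l _ => (ginv_smooth' hg hI k l).smul
    ((cg_smooth hg hI hL contDiffAt_const contDiffAt_const).sub (bg_smooth hx hx0 _ _))

theorem dWg_smooth (hx : ContDiffAt ℝ ∞ x q₀) (hx0 : x q₀ ∈ Om ι) (hg : ContDiffAt ℝ ∞ g q₀)
    (hI : (g q₀).IsInvertible) (hL : ContDiffAt ℝ ∞ L q₀) (u : E ι) :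
    ContDiffAt ℝ ∞ (fun q => dWg (x q) (g q) (L q) u) q₀ := by
  unfold dWg
  exact ContDiffAt.sum fun k _ => ContDiffAt.sum fun l _ =>
    ((dgi_smooth hg hI hL u k l).smul
      ((cg_smooth hg hI hL contDiffAt_const contDiffAt_const).sub (bg_smooth hx hx0 _ _))).add
    ((ginv_smooth' hg hI k l).smul ((dg_smooth hg hI hL _ _ _).sub (dbg_smooth hx hx0 _ _ _)))

theorem phi_smooth (hx : ContDiffAt ℝ ∞ x q₀) (hx0 : x q₀ ∈ Om ι) (hg : ContDiffAt ℝ ∞ g q₀)
    (hI : (g q₀).IsInvertible) (hL : ContDiffAt ℝ ∞ L q₀) (v w : E ι) :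
    ContDiffAt ℝ ∞ (fun q => phi (x q) (g q) (L q) v w) q₀ := by
  unfold phi
  have h1 := ricg_smooth hg hI hL v w
  have h2 := Wg_smooth hx hx0 hg hI hL
  have h3 := dWg_smooth hx hx0 hg hI hL
  have a1 : ContDiffAt ℝ ∞ (fun q => -2 * ricg (g q) (L q) v w) q₀ := contDiffAt_const.mul h1
  have a2 : ContDiffAt ℝ ∞ (fun q => L q (Wg (x q) (g q) (L q)) v w) q₀ :=
    ((hL.clm_apply h2).clm_apply contDiffAt_const).clm_apply contDiffAt_const
  have a3 : ContDiffAt ℝ ∞ (fun q => g q (dWg (x q) (g q) (L q) v) w) q₀ :=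
    (hg.clm_apply (h3 v)).clm_apply contDiffAt_const
  have a4 : ContDiffAt ℝ ∞ (fun q => g q v (dWg (x q) (g q) (L q) w)) q₀ :=
    (hg.clm_apply contDiffAt_const).clm_apply (h3 w)
  exact ((a1.add a2).add a3).add a4

end Smooth

theorem Phi_smooth : ContDiffOn ℝ ∞ (Phi (ι := ι)) {q | q.1 ≠ 0 ∧ q.2.1.IsInvertible} := by
  rintro q ⟨h1, h2⟩
  apply ContDiffAt.contDiffWithinAt
  unfold Phi
  refine ContDiffAt.sum fun i _ => ContDiffAt.sum fun j _ => ?_
  have hx : ContDiffAt ℝ ∞ (fun q : E ι × Bil (E ι) × (E ι →L[ℝ] Bil (E ι)) => q.1) q :=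
    contDiffAt_fst
  have hg : ContDiffAt ℝ ∞ (fun q : E ι × Bil (E ι) × (E ι →L[ℝ] Bil (E ι)) => q.2.1) q :=
    contDiffAt_snd.fst
  have hL : ContDiffAt ℝ ∞ (fun q : E ι × Bil (E ι) × (E ι →L[ℝ] Bil (E ι)) => q.2.2) q :=
    contDiffAt_snd.snd
  have := phi_smooth hx h1 hg h2 hL (eb i) (eb j)
  exact this.smul contDiffAt_const

end Pool.Agent.RF.H9
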