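import Pool.Agent.Helper9_RF.RdtStr

/-!
# Structure of the Ricci-DeTurck operator, second part (module RDTS of the squad MP_a23110_gt)
-/

noncomputable section

open scoped ContDiff Topology RealInnerProductSpace
set_option maxSynthPendingDepth 3
open Set

namespace Pool.Agent.RF.H9

open Pool.Agent.RF

variable {ι : Type} [Fintype ι] [DecidableEq ι] {G : E ι → Bil (E ι)} {U : Set (E ι)}

omit [DecidableEq ι] in
/-- derivative of a solution of `G y (p y) = ξ y` -/
theorem deriv_solve {x : E ι} (hI : (G x).IsInvertible) {p : E ι → E ι}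
    {ξ : E ι → E ι →L[ℝ] ℝ} {ξ' : E ι →L[ℝ] E ι →L[ℝ] ℝ} (hG : DifferentiableAt ℝ G x)
    (hp : DifferentiableAt ℝ p x) (hξ : HasFDerivAt ξ ξ' x) (h : ∀ᶠ y in 𝓝 x, G y (p y) = ξ y)
    (u : E ι) :
    fderiv ℝ p x u = (G x).inverse (ξ' u) + - (G x).inverse (fderiv ℝ G x u (p x)) := by
  have h1 := (hG.hasFDerivAt.clm_apply hp.hasFDerivAt).congr_of_eventuallyEq
    (f₁ := ξ) (h.mono fun y hy => hy.symm)
  have h2 := congrArg (fun T : E ι →L[ℝ] E ι →L[ℝ] ℝ => T u) (hξ.unique h1)
  simp only [add_apply, ContinuousLinearMap.comp_apply, ContinuousLinearMap.flip_apply] at h2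
  rw [h2, map_add, hI.inverse_apply_self]
  abel

/-- `kos` as a continuous linear map of the first variable -/
def kosC (v w : E ι) : (E ι →L[ℝ] Bil (E ι)) →L[ℝ] (E ι →L[ℝ] ℝ) :=
  LinearMap.toContinuousLinearMap
    { toFun := fun D => kos D v w
      map_add' := fun D D' => by
        ext z
        simp only [kos_apply, add_apply]
        ring
      map_smul' := fun c D => by
        ext z
        simp only [kos_apply, smul_apply, smul_eq_mul, RingHom.id_apply]
        ring }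

omit [DecidableEq ι] in
theorem kosC_apply (v w : E ι) (D : E ι →L[ℝ] Bil (E ι)) : kosC v w D = kos D v w := rfl

theorem inverse_coord {g : Bil (E ι)} (ξ : E ι →L[ℝ] ℝ) (i : ι) :
    (g.inverse ξ) i = ∑ k, ginv g k i * ξ (eb k) := by
  have h1 : ξ = ∑ k, ξ (eb k) • (EuclideanSpace.proj (𝕜 := ℝ) k : E ι →L[ℝ] ℝ) := by
    ext z
    conv_lhs => rw [sum_eb z]
    simp only [map_sum, map_smul, sum_apply, smul_apply, smul_eq_mul]
    exact Finset.sum_congr rfl fun k _ => mul_comm _ _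
  conv_lhs => rw [h1]
  simp only [map_sum, map_smul, ginv]
  simp [mul_comm]

section Main

variable (hF : ChrFacts G U) (hG : IsMetricOn G U) {x : E ι} (hx : x ∈ U)
include hF hG hx

omit [DecidableEq ι] hF in
theorem diffG : DifferentiableAt ℝ G x :=
  (hG.smooth.contDiffAt (hG.isOpen.mem_nhds hx)).differentiableAt (by simp)

omit [DecidableEq ι] hF in
theorem diffDG : DifferentiableAt ℝ (fderiv ℝ G) x := by
  have h1 : ContDiffAt ℝ ∞ G x := hG.smooth.contDiffAt (hG.isOpen.mem_nhds hx)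
  have hdd : ContDiffAt ℝ 1 (fderiv ℝ G) x := h1.fderiv_right (by
    exact WithTop.coe_le_coe.2 le_top)
  exact hdd.differentiableAt (by simp)

omit [DecidableEq ι] in
theorem d_chris (u v w : E ι) : fderiv ℝ (fun y => chris G y v w) x u =
    (G x).inverse (kos (fderiv ℝ (fderiv ℝ G) x u) v w) + dg (G x) (fderiv ℝ G x) u v w := by
  have h1 : HasFDerivAt (fun y => kos (fderiv ℝ G y) v w)
      ((kosC v w).comp (fderiv ℝ (fderiv ℝ G) x)) x :=
    ((kosC v w).hasFDerivAt).comp x (diffDG hG hx).hasFDerivAt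
  have h2 := deriv_solve (hF.inv x hx) (diffG hG hx) (hF.diffAt hx hG.isOpen v w) h1 (by
    filter_upwards [hG.isOpen.mem_nhds hx] with y hy
    exact (hF.inv y hy).self_apply_inverse _) u
  rw [h2]
  rfl

omit [DecidableEq ι] in
theorem d_ginv (u : E ι) (k l : ι) :
    DifferentiableAt ℝ (fun y => ginv (G y) k l) x ∧
    fderiv ℝ (fun y => ginv (G y) k l) x u = dgi (G x) (fderiv ℝ G x) u k l := by
  have h0 : DifferentiableAt ℝ (fun y => (G y).inverse (EuclideanSpace.proj k)) x :=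
    (inv_smooth (hG.smooth.contDiffAt (hG.isOpen.mem_nhds hx)) (hF.inv x hx)
      contDiffAt_const).differentiableAt (by simp)
  have h2 := deriv_solve (hF.inv x hx) (diffG hG hx) h0
    (hasFDerivAt_const (EuclideanSpace.proj (𝕜 := ℝ) k : E ι →L[ℝ] ℝ) x) (by
    filter_upwards [hG.isOpen.mem_nhds hx] with y hy
    exact (hF.inv y hy).self_apply_inverse _) u
  have h3 : HasFDerivAt (fun y => ginv (G y) k l)
      ((EuclideanSpace.proj (𝕜 := ℝ) l).comp
        (fderiv ℝ (fun y => (G y).inverse (EuclideanSpace.proj k)) x)) x :=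
    ((EuclideanSpace.proj (𝕜 := ℝ) l).hasFDerivAt).comp x h0.hasFDerivAt
  refine ⟨h3.differentiableAt, ?_⟩
  rw [h3.fderiv, ContinuousLinearMap.comp_apply, h2]
  simp [dgi]

theorem d_dtW (hx0 : x ∈ Om ι) (u : E ι) : fderiv ℝ (dtW G) x u =
    (∑ k, ∑ l, ginv (G x) k l • (G x).inverse (kos (fderiv ℝ (fderiv ℝ G) x u) (eb k) (eb l)))
      + dWg x (G x) (fderiv ℝ G x) u := by
  have h1 : ∀ k l : ι, HasFDerivAt
      (fun y => ginv (G y) k l • (chris G y (eb k) (eb l) - bgchris y (eb k) (eb l)))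
      (ginv (G x) k l • (fderiv ℝ (fun y => chris G y (eb k) (eb l)) x
          - fderiv ℝ (fun y => bgchris y (eb k) (eb l)) x)
        + (fderiv ℝ (fun y => ginv (G y) k l) x).smulRight
          (chris G x (eb k) (eb l) - bgchris x (eb k) (eb l))) x := by
    intro k l
    have a1 := (d_ginv hF hG hx u k l).1.hasFDerivAt
    have a2 := (hF.diffAt hx hG.isOpen (eb k) (eb l)).hasFDerivAt
    have a3 := ((bgchris_smooth hx0 (eb k) (eb l)).differentiableAt (by simp)).hasFDerivAt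
    exact a1.smul (a2.sub a3)
  have h2 : HasFDerivAt (dtW G) (∑ k, ∑ l, (ginv (G x) k l •
        (fderiv ℝ (fun y => chris G y (eb k) (eb l)) x
          - fderiv ℝ (fun y => bgchris y (eb k) (eb l)) x)
        + (fderiv ℝ (fun y => ginv (G y) k l) x).smulRight
          (chris G x (eb k) (eb l) - bgchris x (eb k) (eb l)))) x := by
    have h3 := HasFDerivAt.fun_sum (u := Finset.univ) (fun k _ =>
      HasFDerivAt.fun_sum (u := Finset.univ) (fun l _ => h1 k l))
    exact h3
  rw [h2.fderiv, dWg, ← Finset.sum_add_distrib, sum_apply]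
  refine Finset.sum_congr rfl fun k _ => ?_
  rw [← Finset.sum_add_distrib, sum_apply]
  refine Finset.sum_congr rfl fun l _ => ?_
  simp only [add_apply, smul_apply, sub_apply, ContinuousLinearMap.smulRight_apply]
  rw [d_chris hF hG hx, (d_ginv hF hG hx u k l).2]
  have e1 : chris G x (eb k) (eb l) = cg (G x) (fderiv ℝ G x) (eb k) (eb l) := rfl
  rw [e1]
  module

omit [DecidableEq ι] in
theorem ginv_symm (k l : ι) : ginv (G x) k l = ginv (G x) l k := by
  have hI := hF.inv x hx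
  have h1 : ∀ k l : ι, G x ((G x).inverse (EuclideanSpace.proj (𝕜 := ℝ) k))
      ((G x).inverse (EuclideanSpace.proj (𝕜 := ℝ) l)) = ginv (G x) l k := by
    intro k l
    rw [hI.self_apply_inverse]
    rfl
  rw [← h1 l k, hG.symm x hx, h1]

omit [DecidableEq ι] in
/-- symmetries of the second derivative -/
theorem hess_symm : (∀ a b c d, fderiv ℝ (fderiv ℝ G) x a b c d = fderiv ℝ (fderiv ℝ G) x b a c d) ∧
    (∀ a b c d, fderiv ℝ (fderiv ℝ G) x a b c d = fderiv ℝ (fderiv ℝ G) x a b d c) := by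
  have h1 : ContDiffAt ℝ ∞ G x := hG.smooth.contDiffAt (hG.isOpen.mem_nhds hx)
  have hsym2 : ∀ a b : E ι, fderiv ℝ (fderiv ℝ G) x a b = fderiv ℝ (fderiv ℝ G) x b a := by
    have := h1.isSymmSndFDerivAt (by
      simp only [minSmoothness_of_isRCLikeNormedField]
      exact WithTop.coe_le_coe.2 le_top)
    intro a b
    exact this a b
  refine ⟨fun a b c d => by rw [hsym2], fun a b c d => ?_⟩
  have e : ∀ c d : E ι, HasFDerivAt (fun y => fderiv ℝ G y b c d)
      (((ContinuousLinearMap.apply ℝ ℝ d).comp ((ContinuousLinearMap.apply ℝ (E ι →L[ℝ] ℝ) c).comp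
        ((ContinuousLinearMap.apply ℝ (Bil (E ι)) b).comp (fderiv ℝ (fderiv ℝ G) x))))) x := by
    intro c d
    exact HasFDerivAt.comp (g := fun D : E ι →L[ℝ] Bil (E ι) => D b c d) x
      (((ContinuousLinearMap.apply ℝ ℝ d).comp
      ((ContinuousLinearMap.apply ℝ (E ι →L[ℝ] ℝ) c).comp
        (ContinuousLinearMap.apply ℝ (Bil (E ι)) b))).hasFDerivAt)
      (diffDG hG hx).hasFDerivAt
  have e2 := (e d c).congr_of_eventuallyEq (f₁ := fun y => fderiv ℝ G y b c d) (by
    filter_upwards [hG.isOpen.mem_nhds hx] with y hy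
    exact hF.dsymm y hy c d b)
  have e3 := congrArg (fun T : E ι →L[ℝ] ℝ => T a) ((e c d).unique e2)
  exact e3

theorem ric_eq (v w : E ι) : ric G x v w =
    (∑ i, ∑ k, ginv (G x) k i * (kos (fderiv ℝ (fderiv ℝ G) x (eb i)) v w (eb k)
      - kos (fderiv ℝ (fderiv ℝ G) x v) (eb i) w (eb k)))
      + ricg (G x) (fderiv ℝ G x) v w := by
  unfold ric ricg
  rw [← Finset.sum_add_distrib]
  refine Finset.sum_congr rfl fun i _ => ?_
  have e1 : riem G x (eb i) v w = (G x).inverse (kos (fderiv ℝ (fderiv ℝ G) x (eb i)) v w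
      - kos (fderiv ℝ (fderiv ℝ G) x v) (eb i) w) + rg (G x) (fderiv ℝ G x) (eb i) v w := by
    unfold riem rg
    rw [d_chris hF hG hx, d_chris hF hG hx, map_sub]
    have e2 : ∀ a b, chris G x a b = cg (G x) (fderiv ℝ G x) a b := fun _ _ => rfl
    simp only [e2]
    abel
  rw [e1, PiLp.add_apply, inverse_coord]
  rfl

theorem rdt_eq (hx0 : x ∈ Om ι) (v w : E ι) : rdt G x v w =
    ∑ k, ∑ l, ginv (G x) k l * (fderiv ℝ (fderiv ℝ G) x (eb k) (eb l) v w)
      + phi x (G x) (fderiv ℝ G x) v w := by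
  obtain ⟨hS1, hS2⟩ := hess_symm hF hG hx
  have hI := hF.inv x hx
  set S := fderiv ℝ (fderiv ℝ G) x with hS
  have hgs := ginv_symm hF hG hx
  have hswap : ∀ f : ι → ι → ℝ, ∑ k, ∑ l, ginv (G x) k l * f k l
      = ∑ k, ∑ l, ginv (G x) k l * f l k := by
    intro f
    rw [Finset.sum_comm]
    refine Finset.sum_congr rfl fun k _ => Finset.sum_congr rfl fun l _ => ?_
    rw [hgs l k]
  have hric := ric_eq hF hG hx v w
  have hdv := d_dtW hF hG hx hx0 v
  have hdw := d_dtW hF hG hx hx0 w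
  rw [← hS] at hric hdv hdw
  unfold rdt phi
  rw [hric, hdv, hdw]
  have eW : dtW G x = Wg x (G x) (fderiv ℝ G x) := rfl
  rw [eW]
  simp only [map_add, add_apply, map_sum, sum_apply, map_smul, smul_apply, smul_eq_mul]
  have e1 : ∀ (u : E ι) (k l : ι), G x ((G x).inverse (kos (S u) (eb k) (eb l))) =
      kos (S u) (eb k) (eb l) := fun u k l => hI.self_apply_inverse _
  have e2 : ∀ (k l : ι), G x v ((G x).inverse (kos (S w) (eb k) (eb l))) =
      kos (S w) (eb k) (eb l) v := by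
    intro k l
    rw [hG.symm x hx, hI.self_apply_inverse]
  simp only [e1, e2, kos_apply]
  -- the second order terms
  have q1 : ∑ i, ∑ k, ginv (G x) k i * ((1 / 2 : ℝ) * (S (eb i) v w (eb k) + S (eb i) w v (eb k)
      - S (eb i) (eb k) v w) - (1 / 2 : ℝ) * (S v (eb i) w (eb k) + S v w (eb i) (eb k)
      - S v (eb k) (eb i) w)) =
      ∑ k, ∑ l, ginv (G x) k l * ((1 / 2 : ℝ) * (S w (eb k) v (eb l) - S (eb k) (eb l) v w
        - S v w (eb k) (eb l) + S v (eb k) (eb l) w)) := by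
    have : ∀ i k : ι, ginv (G x) k i * ((1 / 2 : ℝ) * (S (eb i) v w (eb k) + S (eb i) w v (eb k)
      - S (eb i) (eb k) v w) - (1 / 2 : ℝ) * (S v (eb i) w (eb k) + S v w (eb i) (eb k)
      - S v (eb k) (eb i) w)) = ginv (G x) i k * ((1 / 2 : ℝ) * (S w (eb i) v (eb k)
        - S (eb i) (eb k) v w - S v w (eb i) (eb k))) + ginv (G x) i k * ((1 / 2 : ℝ) *
          S v (eb k) (eb i) w) := by
      intro i k
      rw [hgs k i, hS1 (eb i) v w (eb k), hS1 (eb i) w v (eb k)]
      ring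
    simp only [this, Finset.sum_add_distrib]
    rw [hswap (fun i k => (1 / 2 : ℝ) * S v (eb k) (eb i) w)]
    rw [← Finset.sum_add_distrib]
    refine Finset.sum_congr rfl fun k _ => ?_
    rw [← Finset.sum_add_distrib]
    refine Finset.sum_congr rfl fun l _ => ?_
    ring
  have q2 : ∀ a b : E ι, ∑ k, ∑ l, ginv (G x) k l * ((1 / 2 : ℝ) * (S a (eb k) (eb l) b
      + S a (eb l) (eb k) b - S a b (eb k) (eb l))) =
      ∑ k, ∑ l, ginv (G x) k l * (S a (eb k) (eb l) b - (1 / 2 : ℝ) * S a b (eb k) (eb l)) := by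
    intro a b
    have : ∀ k l : ι, ginv (G x) k l * ((1 / 2 : ℝ) * (S a (eb k) (eb l) b
      + S a (eb l) (eb k) b - S a b (eb k) (eb l))) = ginv (G x) k l * ((1 / 2 : ℝ) *
        (S a (eb k) (eb l) b - S a b (eb k) (eb l))) + ginv (G x) k l * ((1 / 2 : ℝ) *
        S a (eb l) (eb k) b) := by
      intro k l
      ring
    simp only [this, Finset.sum_add_distrib]
    rw [hswap (fun k l => (1 / 2 : ℝ) * S a (eb l) (eb k) b)]
    rw [← Finset.sum_add_distrib]
    refine Finset.sum_congr rfl fun k _ => ?_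
    rw [← Finset.sum_add_distrib]
    refine Finset.sum_congr rfl fun l _ => ?_
    ring
  rw [q1, q2 v w, q2 w v]
  have q3 : -2 * ∑ k, ∑ l, ginv (G x) k l * ((1 / 2 : ℝ) * (S w (eb k) v (eb l)
        - S (eb k) (eb l) v w - S v w (eb k) (eb l) + S v (eb k) (eb l) w))
      + ∑ k, ∑ l, ginv (G x) k l * (S v (eb k) (eb l) w - (1 / 2 : ℝ) * S v w (eb k) (eb l))
      + ∑ k, ∑ l, ginv (G x) k l * (S w (eb k) (eb l) v - (1 / 2 : ℝ) * S w v (eb k) (eb l))
      = ∑ k, ∑ l, ginv (G x) k l * (S (eb k) (eb l) v w) := by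
    rw [Finset.mul_sum, ← Finset.sum_add_distrib, ← Finset.sum_add_distrib]
    refine Finset.sum_congr rfl fun k _ => ?_
    rw [Finset.mul_sum, ← Finset.sum_add_distrib, ← Finset.sum_add_distrib]
    refine Finset.sum_congr rfl fun l _ => ?_
    rw [hS2 w (eb k) v (eb l), hS1 w v (eb k) (eb l)]
    ring
  rw [← q3]
  ring

end Main

theorem rdtStr (hC : ChrStatement) : RdtStructureStatement := by
  intro ι _ _
  refine ⟨Phi, Phi_smooth, ?_⟩
  intro G U hG hU x hx v w
  rw [Phi_apply]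
  exact rdt_eq (chrFacts hC hG) hG hx (hU hx) v w

end Pool.Agent.RF.H9
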